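import Pool.Agent.R836.RD.Main

set_option autoImplicit false

/-!
# No further even progressions for partitions without parts `≡ 3 (mod 6)` (MP_24de68_nt, Q2)

Let `a n` be the number of partitions of `n` in which no part is congruent to 3 modulo 6. If no term
of the progression `A n + B`, `A ≥ 1`, is congruent to 2 or 3 modulo 4, then `a (A n + B)` is odd for
infinitely many `n`. This is the assertion of Q2.

Method. Modulo 2, `a (4 m)` and `a (4 m + 1)` are the coefficients of `f_1 ^ 2 / f_3` and
`f_3 ^ 2 / f_1` (by the modular equation of level 3). Let `D = ∑ X ^ (odd square)` be the reduction of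
`Δ`, `e = ∑ X ^ (m ^ 2)`, `(m, 6) = 1`, so `e ^ 3 = D(X ^ 3)`; the two functions are
`e(p) ^ 2 / e(p ^ 3)` and `e(p ^ 3) ^ 2 / e(p)` in `p ^ 24`. Over `K = kk(D(w ^ L))`, `kk` the algebraic
closure of `F_2`, the automorphisms of the algebraic closure of `kk((w))` permute, for every odd prime
`ℓ`, the `ℓ`-neighbours `D(x ^ ℓ)`, `D(y)`, `y ^ ℓ = x`, of `D(x)`, `x = c w ^ j`: the Hecke operator
`T_ℓ` maps `F_2[D]` to itself (starting files), which gives all power sums of the neighbours as
polynomials in `D(x)`; and power sums determine a set, also over the local ring `OB[Z / 2 ^ κ]`, where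
`w → z w` takes care of the classes of exponents modulo `2 ^ κ`. `D(w ^ (L ℓ))` is not fixed: if it were
a rational function of `D(w ^ L)` it would be a polynomial of degree 1, as `T_ℓ` does not raise the
degree. The parts of `D` modulo `2 ^ κ` lie in a tower of quadratic extensions (duplication of theta
functions), while the rotation `w → ζ w` has odd order. This gives an automorphism that maps
`D(w ^ 3)` to `D(w ^ (3 M ^ 2))`, `L = 3 M`, with all its parts modulo `2 ^ κ`. If all coefficients of
the function in a class modulo `2 ^ κ M` vanish, there is a linear relation between its values at the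
`ζ ^ t w`; the automorphism maps it to a relation in which one term (for `f_1 ^ 2 / f_3`: two terms,
whose leading coefficients do not cancel) has strictly the smallest order: a contradiction.
-/

namespace Pool.Agent.Results.MP_24de68_nt.NoEvenProgression

/-- the number of partitions of `n` in which no part is congruent to 3 modulo 6 -/
def a (n : ℕ) : ℕ :=
  ((Finset.univ : Finset (Nat.Partition n)).filter fun p => ∀ i ∈ p.parts, i % 6 ≠ 3).card

theorem result (A B : ℕ) (hA : 1 ≤ A)
    (h4 : ∀ n : ℕ, ¬ A * n + B ≡ 2 [MOD 4] ∧ ¬ A * n + B ≡ 3 [MOD 4]) :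
    {n : ℕ | Odd (a (A * n + B))}.Infinite := by
  obtain ⟨⟨A', hA'⟩, hB⟩ := Pool.Agent.R836.RD.four_dvd (A := A) (B := B) fun n =>
    ⟨fun h => (h4 n).1 h, fun h => (h4 n).2 h⟩
  have hpos : 0 < A' := by omega
  rw [Set.infinite_iff_exists_gt]
  intro N
  have key : ∃ n, N + 1 ≤ n ∧ ((a (A * n + B) : ℕ) : ZMod 2) = 1 := by
    rcases hB with hB | hB
    · obtain ⟨n, hn, h1⟩ := Pool.Agent.R836.RD.full_Pa A' (B / 4) hpos (N + 1)
      refine ⟨n, hn, ?_⟩
      have e : A * n + B = 4 * (A' * n + B / 4) := by
        rw [hA', mul_add, ← mul_assoc]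
        omega
      rw [e, ← h1]
      exact (Pool.Agent.R836.RD.part.1 (A' * n + B / 4)).1
    · obtain ⟨n, hn, h1⟩ := Pool.Agent.R836.RD.full_Pb A' (B / 4) hpos (N + 1)
      refine ⟨n, hn, ?_⟩
      have e : A * n + B = 4 * (A' * n + B / 4) + 1 := by
        rw [hA', mul_add, ← mul_assoc]
        omega
      rw [e, ← h1]
      exact (Pool.Agent.R836.RD.part.1 (A' * n + B / 4)).2
  obtain ⟨n, hn, h1⟩ := key
  exact ⟨n, ZMod.natCast_eq_one_iff_odd.1 h1, hn⟩

end Pool.Agent.Results.MP_24de68_nt.NoEvenProgression
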